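import Mathlib

/-!
# Integrals over discs in polar coordinates; the half disc
-/

set_option autoImplicit false

namespace Pool.Agent.Y98.GM

open MeasureTheory Set Filter Topology Real
open scoped ENNReal

noncomputable section

/-- the closed disc -/
def DD (r : ℝ) : Set (ℝ × ℝ) := {q | q.1 ^ 2 + q.2 ^ 2 ≤ r ^ 2}

/-- the right half disc -/
def HH (r : ℝ) : Set (ℝ × ℝ) := {q | 0 < q.1 ∧ q.1 ^ 2 + q.2 ^ 2 ≤ r ^ 2}

lemma DD_meas (r : ℝ) : MeasurableSet (DD r) := by
  unfold DD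
  exact measurableSet_le (by fun_prop) measurable_const

lemma HH_meas (r : ℝ) : MeasurableSet (HH r) := by
  have h : HH r = {q : ℝ × ℝ | 0 < q.1} ∩ DD r := rfl
  rw [h]
  exact (measurableSet_lt measurable_const measurable_fst).inter (DD_meas r)

lemma polar_disc {r : ℝ} (hr : 0 < r) {f : ℝ × ℝ → ℝ≥0∞} (hf : Measurable f) :
    ∫⁻ q in DD r, f q = ∫⁻ ρ in Ioc 0 r, ENNReal.ofReal ρ *
      ∫⁻ θ in Ioo (-π) π, f (ρ * Real.cos θ, ρ * Real.sin θ) := by
  have hm : Measurable ((DD r).indicator f) := hf.indicator (DD_meas r)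
  rw [← lintegral_indicator (DD_meas r), ← lintegral_comp_polarCoord_symm]
  have e1 : polarCoord.target = Ioi (0:ℝ) ×ˢ Ioo (-π) π := rfl
  rw [e1, Measure.volume_eq_prod, ← Measure.prod_restrict]
  have hm2 : Measurable fun p : ℝ × ℝ => ENNReal.ofReal p.1 •
      (DD r).indicator f (polarCoord.symm p) := by
    have h2 : Measurable fun p : ℝ × ℝ => polarCoord.symm p := by
      have : (fun p : ℝ × ℝ => polarCoord.symm p) =
        fun p : ℝ × ℝ => (p.1 * Real.cos p.2, p.1 * Real.sin p.2) := rfl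
      rw [this]
      fun_prop
    exact (ENNReal.measurable_ofReal.comp measurable_fst).smul (hm.comp h2)
  rw [lintegral_prod _ hm2.aemeasurable]
  have e2 : Ioc (0:ℝ) r = Ioi 0 ∩ Iic r := (Ioi_inter_Iic).symm
  rw [e2, inter_comm, ← Measure.restrict_restrict measurableSet_Iic,
    ← lintegral_indicator measurableSet_Iic]
  refine setLIntegral_congr_fun measurableSet_Ioi fun ρ hρ => ?_
  have hρ0 : 0 < ρ := hρ
  have e3 : ∀ θ : ℝ, polarCoord.symm (ρ, θ) = (ρ * Real.cos θ, ρ * Real.sin θ) := fun _ => rfl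
  have e4 : ∀ θ : ℝ, (ρ * Real.cos θ) ^ 2 + (ρ * Real.sin θ) ^ 2 = ρ ^ 2 := fun θ => by
    nlinarith [Real.sin_sq_add_cos_sq θ]
  simp only [e3, smul_eq_mul]
  by_cases h : ρ ≤ r
  · rw [indicator_of_mem (show ρ ∈ Iic r from h), ← lintegral_const_mul']
    · refine lintegral_congr fun θ => ?_
      rw [indicator_of_mem]
      show (ρ * Real.cos θ) ^ 2 + (ρ * Real.sin θ) ^ 2 ≤ r ^ 2
      rw [e4]
      exact pow_le_pow_left₀ hρ0.le h 2
    · exact ENNReal.ofReal_ne_top
  · rw [indicator_of_notMem (show ρ ∉ Iic r from h)]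
    have h' : r < ρ := not_le.1 h
    rw [← lintegral_zero (μ := volume.restrict (Ioo (-π) π))]
    refine lintegral_congr fun θ => ?_
    rw [indicator_of_notMem, mul_zero]
    show ¬ ((ρ * Real.cos θ) ^ 2 + (ρ * Real.sin θ) ^ 2 ≤ r ^ 2)
    rw [e4, not_le]
    exact pow_lt_pow_left₀ h' hr.le two_ne_zero

lemma rho_int {r : ℝ} (hr : 0 < r) : ∫⁻ ρ in Ioc 0 r, ENNReal.ofReal ρ = ENNReal.ofReal (r ^ 2 / 2) := by
  rw [← ofReal_integral_eq_lintegral_ofReal]
  · rw [← intervalIntegral.integral_of_le hr.le, integral_id]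
    congr 1
    ring
  · exact (intervalIntegrable_iff_integrableOn_Ioc_of_le hr.le).1 (continuous_id.intervalIntegrable 0 r)
  · rw [EventuallyLE, ae_restrict_iff' measurableSet_Ioc]
    exact Eventually.of_forall fun x hx => hx.1.le

/-- the area of the disc -/
lemma DD_vol {r : ℝ} (hr : 0 < r) : volume (DD r) = ENNReal.ofReal (π * r ^ 2) := by
  have h1 := polar_disc hr (f := fun _ => 1) measurable_const
  rw [setLIntegral_one] at h1
  rw [h1]
  simp only [setLIntegral_one, Real.volume_Ioo]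
  rw [lintegral_mul_const' _ _ ENNReal.ofReal_ne_top, rho_int hr,
    ← ENNReal.ofReal_mul (by positivity)]
  congr 1
  ring

/-- the submean value inequality over a disc, from the inequality over the circles -/
lemma disc_sub {r A : ℝ} (hr : 0 < r) {U : ℝ × ℝ → ℝ} (hU : Measurable U)
    (hc : ∀ ρ, 0 < ρ → ρ ≤ r → ENNReal.ofReal (2 * π * A) ≤
      ∫⁻ θ in Ioo (-π) π, ENNReal.ofReal (U (ρ * Real.cos θ, ρ * Real.sin θ)))
    (_hA : 0 ≤ A) (h0 : ∀ q, 0 ≤ U q) (hi : IntegrableOn U (DD r)) :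
    π * r ^ 2 * A ≤ ∫ q in DD r, U q := by
  have h1 := polar_disc hr (f := fun q => ENNReal.ofReal (U q)) hU.ennreal_ofReal
  have h2 : ∫⁻ ρ in Ioc 0 r, ENNReal.ofReal ρ * ENNReal.ofReal (2 * π * A) ≤
      ∫⁻ ρ in Ioc 0 r, ENNReal.ofReal ρ *
      ∫⁻ θ in Ioo (-π) π, ENNReal.ofReal (U (ρ * Real.cos θ, ρ * Real.sin θ)) := by
    refine setLIntegral_mono' measurableSet_Ioc fun ρ hρ => ?_
    exact mul_le_mul_right (hc ρ hρ.1 hρ.2) _
  rw [← h1, lintegral_mul_const' _ _ ENNReal.ofReal_ne_top, rho_int hr,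
    ← ENNReal.ofReal_mul (by positivity),
    ← ofReal_integral_eq_lintegral_ofReal hi (Eventually.of_forall fun q => h0 q)] at h2
  have h3 := (ENNReal.ofReal_le_ofReal_iff (integral_nonneg fun q => h0 q)).1 h2
  calc π * r ^ 2 * A = r ^ 2 / 2 * (2 * π * A) := by ring
    _ ≤ _ := h3

/-- the reflection in the vertical axis -/
def sig : ℝ × ℝ ≃ᵐ ℝ × ℝ := (MeasurableEquiv.neg ℝ).prodCongr (MeasurableEquiv.refl ℝ)

lemma sig_apply (q : ℝ × ℝ) : sig q = (-q.1, q.2) := rfl

lemma sig_mp : MeasurePreserving sig (volume : Measure (ℝ × ℝ)) volume := by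
  have h := (Measure.measurePreserving_neg (volume : Measure ℝ)).prod
    (MeasurePreserving.id (volume : Measure ℝ))
  exact h

lemma DD_ae (r : ℝ) : DD r =ᵐ[volume] (HH r ∪ sig ⁻¹' HH r : Set (ℝ × ℝ)) := by
  have hL : volume {q : ℝ × ℝ | q.1 = 0} = 0 := by
    have e : {q : ℝ × ℝ | q.1 = 0} = ({0} : Set ℝ) ×ˢ (univ : Set ℝ) := by
      ext q
      simp
    rw [e, Measure.volume_eq_prod, Measure.prod_prod, Real.volume_singleton, zero_mul]
  rw [ae_eq_set]
  constructor
  · refine measure_mono_null ?_ hL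
    rintro q ⟨h1, h2⟩
    have hq : q.1 ^ 2 + q.2 ^ 2 ≤ r ^ 2 := h1
    show q.1 = 0
    by_contra h3
    apply h2
    rcases lt_or_gt_of_ne h3 with h4 | h4
    · right
      refine ⟨?_, ?_⟩
      · show 0 < -q.1
        linarith
      · show (-q.1) ^ 2 + q.2 ^ 2 ≤ r ^ 2
        rw [neg_sq]
        exact hq
    · left
      exact ⟨h4, hq⟩
  · refine measure_mono_null (t := ∅) ?_ measure_empty
    rintro q ⟨h1, h2⟩
    exfalso
    apply h2
    rcases h1 with h1 | h1
    · exact h1.2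
    · have h3 : (-q.1) ^ 2 + q.2 ^ 2 ≤ r ^ 2 := h1.2
      rw [neg_sq] at h3
      exact h3

lemma HH_sub (r : ℝ) : HH r ⊆ DD r := fun _ hq => hq.2

/-- splitting of the integral over the disc -/
lemma split {r : ℝ} {f : ℝ × ℝ → ℝ} (hi : IntegrableOn f (DD r)) :
    IntegrableOn (fun q => f (-q.1, q.2)) (HH r) ∧
    ∫ q in DD r, f q = (∫ q in HH r, f q) + ∫ q in HH r, f (-q.1, q.2) := by
  have hs : ∀ q : ℝ × ℝ, f q = (fun q => f (-q.1, q.2)) (sig q) := fun q => by
    simp [sig_apply]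
  have hi2 : IntegrableOn f (sig ⁻¹' HH r) := by
    refine hi.mono_set ?_
    intro q hq
    have h3 : (-q.1) ^ 2 + q.2 ^ 2 ≤ r ^ 2 := hq.2
    rw [neg_sq] at h3
    exact h3
  have hi3 : IntegrableOn (fun q => f (-q.1, q.2)) (HH r) := by
    have h1 := (sig_mp.restrict_preimage_emb sig.measurableEmbedding (HH r)).integrable_comp_emb
      sig.measurableEmbedding (g := fun q => f (-q.1, q.2))
    have e : (fun q => f (-q.1, q.2)) ∘ sig = f := by
      funext q
      exact (hs q).symm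
    rw [e] at h1
    exact h1.1 hi2
  refine ⟨hi3, ?_⟩
  have hdis : Disjoint (HH r) (sig ⁻¹' HH r) := by
    rw [Set.disjoint_left]
    intro q h1 h2
    have a1 : 0 < q.1 := h1.1
    have a2 : 0 < -q.1 := h2.1
    linarith
  rw [setIntegral_congr_set (DD_ae r), setIntegral_union hdis
    (sig.measurable (HH_meas r)) (hi.mono_set (HH_sub r)) hi2]
  congr 1
  have h1 := sig_mp.setIntegral_preimage_emb sig.measurableEmbedding
    (fun q => f (-q.1, q.2)) (HH r)
  rw [← h1]
  refine integral_congr_ae (Eventually.of_forall fun q => ?_)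
  exact hs q

/-- the area of the half disc -/
lemma HH_vol {r : ℝ} (hr : 0 < r) : volume.real (HH r) = π * r ^ 2 / 2 := by
  have hfin : volume (DD r) ≠ ⊤ := by
    rw [DD_vol hr]
    exact ENNReal.ofReal_ne_top
  have hi : IntegrableOn (fun _ : ℝ × ℝ => (1 : ℝ)) (DD r) := integrableOn_const hfin
  have h1 := (split hi).2
  rw [setIntegral_const, setIntegral_const, smul_eq_mul, smul_eq_mul, mul_one, mul_one,
    Measure.real, DD_vol hr, ENNReal.toReal_ofReal (by positivity)] at h1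
  linarith

end

end Pool.Agent.Y98.GM
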