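import Pool.Agent.Y757.GM.Stm
import Pool.Agent.Y98.GM.Polar

/-!
# Geometric means of zeta: the value at the centre of a disc
-/

set_option autoImplicit false

namespace Pool.Agent.Y98.GM

open MeasureTheory Set Filter Topology Real Pool.Agent.Y757.LS Pool.Agent.Y757.EM Pool.Agent.Y757.GM
open scoped ENNReal

noncomputable section

lemma circle_pt (t ρ θ : ℝ) : circleMap (pt 0 t) ρ θ = pt (ρ * Real.cos θ) (t + ρ * Real.sin θ) := by
  have hre : (circleMap (pt 0 t) ρ θ).re = (pt 0 t).re + ρ * Real.cos θ := by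
    rw [circleMap, Complex.add_re, Complex.re_ofReal_mul, Complex.exp_ofReal_mul_I_re]
  have him : (circleMap (pt 0 t) ρ θ).im = (pt 0 t).im + ρ * Real.sin θ := by
    rw [circleMap, Complex.add_im, Complex.im_ofReal_mul, Complex.exp_ofReal_mul_I_im]
  apply Complex.ext
  · rw [hre, pt_re, pt_re]; ring
  · rw [him, pt_im, pt_im]

/-- the inequality over the circles -/
lemma circ (N t : ℝ) {ρ : ℝ} (hρ : 0 < ρ) (hρ1 : ρ ≤ 1) :
    ENNReal.ofReal (2 * π * (gN N 0 t + N)) ≤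
      ∫⁻ θ in Ioo (-π) π, ENNReal.ofReal (gN N (ρ * Real.cos θ) (t + ρ * Real.sin θ) + N) := by
  set F : ℂ → ℂ := fun z => (Real.exp N : ℂ) * GG z with hF
  have hn : ∀ z, ‖F z‖ = Real.exp N * ‖GG z‖ := by
    intro z
    simp only [hF]
    rw [norm_mul, Complex.norm_real, Real.norm_eq_abs, abs_of_pos (Real.exp_pos N)]
  have hA : AnalyticOnNhd ℂ F (Metric.closedBall (pt 0 t) ρ) := by
    intro z hz
    have h1 : |(z - pt 0 t).re| ≤ ρ := (Complex.abs_re_le_norm _).trans (by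
      rw [← dist_eq_norm]; exact hz)
    rw [Complex.sub_re, pt_re] at h1
    have h2 := (abs_le.1 h1).1
    exact analyticAt_const.mul (GG_analyticAt (by linarith))
  have h1 := Pool.Agent.H983R4.LH.posLog_submean hρ hA
  set u : ℝ → ℝ := fun θ => log⁺ ‖F (circleMap (pt 0 t) ρ θ)‖ with hu
  have huc : Continuous u := by
    refine Real.continuous_posLog.comp (Continuous.norm ?_)
    rw [continuous_iff_continuousAt]
    intro θ
    have h2 : circleMap (pt 0 t) ρ θ ∈ Metric.closedBall (pt 0 t) ρ :=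
      circleMap_mem_closedBall _ hρ.le θ
    exact ContinuousAt.comp (g := F) (f := fun θ => circleMap (pt 0 t) ρ θ)
      (hA _ h2).continuousAt (continuous_circleMap _ _).continuousAt
  have hu0 : ∀ θ, 0 ≤ u θ := fun θ => posLog_nonneg
  have hper : Function.Periodic u (2 * π) := by
    intro θ
    simp only [hu]
    rw [periodic_circleMap (pt 0 t) ρ θ]
  have h2 : circleAverage (fun z => log⁺ ‖F z‖) (pt 0 t) ρ = (2 * π)⁻¹ * ∫ θ in (0:ℝ)..2 * π, u θ := rfl
  have h3 : ∫ θ in (0:ℝ)..2 * π, u θ = ∫ θ in Ioo (-π) π, u θ := by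
    have h4 := hper.intervalIntegral_add_eq 0 (-π)
    rw [zero_add, show -π + 2 * π = π by ring] at h4
    rw [h4, intervalIntegral.integral_of_le (by linarith [Real.pi_pos]), integral_Ioc_eq_integral_Ioo]
  have hui : IntegrableOn u (Ioo (-π) π) :=
    (huc.integrableOn_Icc (a := -π) (b := π)).mono_set Ioo_subset_Icc_self
  have hpi := Real.pi_pos
  have h5 : 2 * π * (gN N 0 t + N) ≤ ∫ θ in Ioo (-π) π, u θ := by
    rw [h2, h3] at h1
    have e : gN N 0 t + N = log⁺ ‖F (pt 0 t)‖ := by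
      rw [hn]
      unfold gN
      ring
    rw [e]
    calc 2 * π * log⁺ ‖F (pt 0 t)‖ ≤ 2 * π * ((2 * π)⁻¹ * ∫ θ in Ioo (-π) π, u θ) :=
          mul_le_mul_of_nonneg_left h1 (by positivity)
      _ = _ := by
          rw [← mul_assoc, mul_inv_cancel₀ (by positivity), one_mul]
  refine (ENNReal.ofReal_le_ofReal h5).trans (le_of_eq ?_)
  rw [ofReal_integral_eq_lintegral_ofReal hui (Eventually.of_forall hu0)]
  refine lintegral_congr fun θ => ?_
  congr 1
  simp only [hu]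
  rw [hn, circle_pt]
  unfold gN
  ring

lemma mem_bd {r : ℝ} (hr : 0 < r) {q : ℝ × ℝ} (hq : q ∈ DD r) : |q.1| ≤ r ∧ |q.2| ≤ r := by
  have h : q.1 ^ 2 + q.2 ^ 2 ≤ r ^ 2 := hq
  constructor
  · refine abs_le_of_sq_le_sq ?_ hr.le
    nlinarith [sq_nonneg q.2]
  · refine abs_le_of_sq_le_sq ?_ hr.le
    nlinarith [sq_nonneg q.1]

lemma DD_fin {r : ℝ} (hr : 0 < r) : volume (DD r) ≠ ⊤ := by
  rw [DD_vol hr]
  exact ENNReal.ofReal_ne_top

lemma gN_int {r : ℝ} (hr : 0 < r) (hr1 : r ≤ 1) {N : ℝ} (hN : 0 ≤ N) (t : ℝ) :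
    IntegrableOn (fun q : ℝ × ℝ => gN N q.1 (t + q.2)) (DD r) := by
  obtain ⟨A, hA0, hA⟩ := gN_abs_le hN
  refine Measure.integrableOn_of_bounded (M := A * (1 + |t|) * 2) (DD_fin hr)
    (gN_meas_comp N measurable_fst (measurable_snd.const_add t)).aestronglyMeasurable ?_
  rw [ae_restrict_iff' (DD_meas r)]
  refine Eventually.of_forall fun q hq => ?_
  obtain ⟨h1, h2⟩ := mem_bd hr hq
  have h3 := abs_le.1 h1
  rw [Real.norm_eq_abs]
  refine (hA q.1 t q.2 (by linarith) (by linarith)).trans ?_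
  refine mul_le_mul_of_nonneg_left ?_ (by positivity)
  have h4 : q.2 ^ 2 ≤ 1 := by
    rw [← sq_abs]
    exact pow_le_one₀ (abs_nonneg _) (h2.trans hr1)
  linarith

/-- the submean value inequality for the truncated function -/
lemma disc_gN {r : ℝ} (hr : 0 < r) (hr1 : r ≤ 1) {N : ℝ} (hN : 0 ≤ N) (t : ℝ) :
    π * r ^ 2 * gN N 0 t ≤ ∫ q in DD r, gN N q.1 (t + q.2) := by
  have hi := gN_int hr hr1 hN t
  have hic : IntegrableOn (fun _ : ℝ × ℝ => N) (DD r) := integrableOn_const (DD_fin hr)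
  have h1 := disc_sub (A := gN N 0 t + N) (U := fun q => gN N q.1 (t + q.2) + N) hr
    ((gN_meas_comp N measurable_fst (measurable_snd.const_add t)).add_const N)
    (fun ρ h0 h1 => circ N t h0 (h1.trans hr1)) (by linarith [gN_ge N 0 t])
    (fun q => by linarith [gN_ge N q.1 (t + q.2)]) (hi.add hic)
  rw [integral_add hi hic, setIntegral_const, Measure.real, DD_vol hr,
    ENNReal.toReal_ofReal (by positivity), smul_eq_mul] at h1
  linarith

/-- reflection for the truncated function -/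
lemma refl_gN : ∃ K : ℝ, 0 ≤ K ∧ ∀ N x u : ℝ, 0 ≤ x → x ≤ 1 → 1 ≤ u →
    gN N (-x) u ≤ gN N x u + x * Real.log u + K := by
  obtain ⟨K, hK, hR⟩ := zeta_refl
  have l5 : 0 ≤ Real.log 5 := Real.log_nonneg (by norm_num)
  refine ⟨K + Real.log 5, by positivity, fun N x u hx hx' hu => ?_⟩
  have hu' : 1 ≤ |u| := by rw [abs_of_nonneg (by linarith)]; exact hu
  have h2 := (hR x u hx (by linarith) hu').2
  have e1 : (1 / 2 + x + u * Complex.I : ℂ) = pt x u := rfl
  have e2 : (1 / 2 - x + u * Complex.I : ℂ) = pt (-x) u := by unfold pt; push_cast; ring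
  rw [e1, e2, abs_of_nonneg (by linarith : 0 ≤ u)] at h2
  have h3 : ‖GG (pt (-x) u)‖ ≤ ‖riemannZeta (pt (-x) u)‖ := by
    rw [GG_of_ne (pt_ne_one hu'), norm_mul]
    have := ratio_le (s := pt (-x) u) (by rw [pt_re]; linarith)
    exact mul_le_of_le_one_left (norm_nonneg _) this
  have h4 : ‖riemannZeta (pt x u)‖ ≤ 5 * ‖GG (pt x u)‖ := by
    rw [GG_of_ne (pt_ne_one hu'), norm_mul]
    have h5 := ratio_ge (s := pt x u) (by rw [pt_re]; linarith) (η := 1) (by norm_num) (by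
      refine hu'.trans ((le_of_eq ?_).trans (Complex.abs_im_le_norm _))
      rw [Complex.sub_im, pt_im, Complex.one_im, sub_zero])
    rw [show (1 + 4 / 1 : ℝ) = 5 by norm_num] at h5
    have h6 := norm_nonneg (riemannZeta (pt x u))
    nlinarith
  have hux : 0 < u ^ x := Real.rpow_pos_of_pos (by linarith) x
  have h5 : ‖GG (pt (-x) u)‖ ≤ (Real.exp K * u ^ x * 5) * ‖GG (pt x u)‖ := by
    refine h3.trans (h2.trans ?_)
    have := mul_le_mul_of_nonneg_left h4 (by positivity : 0 ≤ Real.exp K * u ^ x)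
    linarith
  have hc1 : 1 ≤ Real.exp K * u ^ x * 5 := by
    have a1 : 1 ≤ Real.exp K := Real.one_le_exp hK.le
    have a2 : 1 ≤ u ^ x := Real.one_le_rpow hu hx
    have a3 : 1 ≤ Real.exp K * u ^ x := one_le_mul_of_one_le_of_one_le a1 a2
    linarith
  unfold gN
  have h6 : log⁺ (Real.exp N * ‖GG (pt (-x) u)‖) ≤
      log⁺ ((Real.exp K * u ^ x * 5) * (Real.exp N * ‖GG (pt x u)‖)) := by
    refine posLog_le_posLog (by positivity) ?_
    have := mul_le_mul_of_nonneg_left h5 (Real.exp_pos N).le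
    linarith
  have h7 : log⁺ ((Real.exp K * u ^ x * 5) * (Real.exp N * ‖GG (pt x u)‖)) ≤
      log⁺ (Real.exp K * u ^ x * 5) + log⁺ (Real.exp N * ‖GG (pt x u)‖) := posLog_mul
  have h8 : log⁺ (Real.exp K * u ^ x * 5) = K + x * Real.log u + Real.log 5 := by
    rw [posLog_eq_log (by rw [abs_of_nonneg (by linarith)]; exact hc1),
      Real.log_mul (by positivity) (by norm_num), Real.log_mul (by positivity) hux.ne',
      Real.log_exp, Real.log_rpow (by linarith)]
  linarith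

/-- the inequality between the centre and the half disc, for the truncated function -/
lemma half_gN : ∃ K : ℝ, 0 ≤ K ∧ ∀ r : ℝ, 0 < r → r ≤ 1 → ∀ t : ℝ, 3 ≤ t → ∀ N : ℝ, 0 ≤ N →
    π * r ^ 2 * gN N 0 t ≤ 2 * (∫ q in HH r, gN N q.1 (t + q.2)) +
      (r * Real.log (t + 1) + K) * (π * r ^ 2 / 2) := by
  obtain ⟨K, hK, hR⟩ := refl_gN
  refine ⟨K, hK, fun r hr hr1 t ht N hN => ?_⟩
  have hi := gN_int hr hr1 hN t
  obtain ⟨hi2, h1⟩ := split hi
  have h2 := disc_gN hr hr1 hN t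
  rw [h1] at h2
  have hiH : IntegrableOn (fun q : ℝ × ℝ => gN N q.1 (t + q.2)) (HH r) := hi.mono_set (HH_sub r)
  have hfin : volume (HH r) ≠ ⊤ := ne_top_of_le_ne_top (DD_fin hr) (measure_mono (HH_sub r))
  have hic : IntegrableOn (fun _ : ℝ × ℝ => r * Real.log (t + 1) + K) (HH r) :=
    integrableOn_const hfin
  have h3 : ∫ q in HH r, gN N (-q.1) (t + q.2) ≤
      ∫ q in HH r, (gN N q.1 (t + q.2) + (r * Real.log (t + 1) + K)) := by
    refine setIntegral_mono_on hi2 (hiH.add hic) (HH_meas r) fun q hq => ?_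
    have hq0 : 0 < q.1 := hq.1
    obtain ⟨b1, b2⟩ := mem_bd hr (HH_sub r hq)
    have b3 := abs_le.1 b1
    have b4 := abs_le.1 b2
    have h4 := hR N q.1 (t + q.2) hq0.le (by linarith) (by linarith)
    have h5 : q.1 * Real.log (t + q.2) ≤ r * Real.log (t + 1) := by
      have h6 : Real.log (t + q.2) ≤ Real.log (t + 1) :=
        Real.log_le_log (by linarith) (by linarith)
      have h7 : 0 ≤ Real.log (t + q.2) := Real.log_nonneg (by linarith)
      exact mul_le_mul b3.2 h6 h7 hr.le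
    linarith
  rw [integral_add hiH hic, setIntegral_const, HH_vol hr, smul_eq_mul] at h3
  linarith

/-- zeros are negligible -/
lemma ae_ne2 {r : ℝ} (hr : 0 < r) (hr1 : r ≤ 1) (t : ℝ) :
    ∀ᵐ q : ℝ × ℝ ∂(volume.restrict (HH r)), GG (pt q.1 (t + q.2)) ≠ 0 := by
  have hm : MeasurableSet {q : ℝ × ℝ | GG (pt q.1 (t + q.2)) ≠ 0} := by
    have h1 : Measurable fun q : ℝ × ℝ => GG (pt q.1 (t + q.2)) :=
      GG_measurable.comp (pt_measurable.comp (measurable_fst.prodMk (measurable_snd.const_add t)))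
    exact (measurableSet_eq_fun h1 measurable_const).compl
  have h1 : ∀ᵐ q : ℝ × ℝ ∂((volume.restrict (Ioc (0:ℝ) 1)).prod (volume : Measure ℝ)),
      GG (pt q.1 (t + q.2)) ≠ 0 := by
    rw [Measure.ae_prod_iff_ae_ae hm, Measure.ae_ae_comm hm]
    exact Eventually.of_forall fun y => ae_ne (by norm_num) (by norm_num) (t + y)
  have h2 : volume.restrict (HH r) ≤ (volume.restrict (Ioc (0:ℝ) 1)).prod (volume : Measure ℝ) := by
    have e : (volume.restrict (Ioc (0:ℝ) 1)).prod (volume : Measure ℝ) =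
        (volume : Measure (ℝ × ℝ)).restrict (Ioc (0:ℝ) 1 ×ˢ univ) := by
      rw [Measure.volume_eq_prod, ← Measure.prod_restrict, Measure.restrict_univ]
    rw [e]
    refine Measure.restrict_mono ?_ le_rfl
    intro q hq
    obtain ⟨b1, b2⟩ := mem_bd hr (HH_sub r hq)
    exact ⟨⟨hq.1, ((abs_le.1 b1).2).trans hr1⟩, mem_univ _⟩
  exact h2.absolutelyContinuous.ae_le h1

/-- the inequality between the centre and the half disc -/
lemma half_g : ∃ K : ℝ, 0 ≤ K ∧ ∀ r : ℝ, 0 < r → r ≤ 1 → ∀ t : ℝ, 3 ≤ t → GG (pt 0 t) ≠ 0 →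
    IntegrableOn (fun q : ℝ × ℝ => g q.1 (t + q.2)) (HH r) ∧
    π * r ^ 2 * g 0 t ≤ 2 * (∫ q in HH r, g q.1 (t + q.2)) +
      (r * Real.log (t + 1) + K) * (π * r ^ 2 / 2) := by
  obtain ⟨K, hK, hH⟩ := half_gN
  obtain ⟨C, hC0, hC⟩ := Pool.Agent.Y757.LS.upper
  refine ⟨K, hK, fun r hr hr1 t ht h0 => ?_⟩
  set B : ℝ := C + 4 * Real.log (1 + (t + 1)) with hB
  have hfin : volume (HH r) ≠ ⊤ := ne_top_of_le_ne_top (DD_fin hr) (measure_mono (HH_sub r))
  have hicB : IntegrableOn (fun _ : ℝ × ℝ => B) (HH r) := integrableOn_const hfin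
  have hbd : ∀ q ∈ HH r, g q.1 (t + q.2) ≤ B ∧ ∀ N : ℝ, 0 ≤ N → gN N q.1 (t + q.2) ≤ B := by
    intro q hq
    have hq0 : 0 < q.1 := hq.1
    obtain ⟨b1, b2⟩ := mem_bd hr (HH_sub r hq)
    have b3 := abs_le.1 b1
    have b4 := abs_le.1 b2
    obtain ⟨c1, c2⟩ := hC q.1 (t + q.2) (by linarith) (by linarith)
    have h1 : |t + q.2| ≤ t + 1 := by rw [abs_le]; constructor <;> linarith
    have h2 : Real.log (1 + |t + q.2|) ≤ Real.log (1 + (t + 1)) :=
      Real.log_le_log (by have := abs_nonneg (t + q.2); linarith) (by linarith)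
    exact ⟨by linarith, fun N hN => by linarith [c2 N hN]⟩
  set μ : Measure (ℝ × ℝ) := volume.restrict (HH r) with hμ
  set φ : ℕ → ℝ × ℝ → ℝ := fun n q => B - gN n q.1 (t + q.2) with hφ
  set ψ : ℝ × ℝ → ℝ := fun q => B - g q.1 (t + q.2) with hψ
  have hφ0 : ∀ n, ∀ᵐ q ∂μ, 0 ≤ φ n q := by
    intro n
    rw [hμ, ae_restrict_iff' (HH_meas r)]
    refine Eventually.of_forall fun q hq => ?_
    have := (hbd q hq).2 n (Nat.cast_nonneg n)
    simp only [hφ]
    linarith
  have hψ0 : ∀ᵐ q ∂μ, 0 ≤ ψ q := by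
    rw [hμ, ae_restrict_iff' (HH_meas r)]
    refine Eventually.of_forall fun q hq => ?_
    have := (hbd q hq).1
    simp only [hψ]
    linarith
  have hφm : ∀ n, Measurable (φ n) := fun n =>
    (gN_meas_comp n measurable_fst (measurable_snd.const_add t)).const_sub B
  have hψm : Measurable ψ := (g_meas_comp measurable_fst (measurable_snd.const_add t)).const_sub B
  have hlim : ∀ᵐ q ∂μ, Tendsto (fun n => φ n q) atTop (𝓝 (ψ q)) := by
    filter_upwards [ae_ne2 hr hr1 t] with q hq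
    refine tendsto_const_nhds.congr' ?_
    obtain ⟨n, hn⟩ := exists_nat_ge |g q.1 (t + q.2)|
    filter_upwards [eventually_ge_atTop n] with m hm
    simp only [hφ, hψ]
    rw [gN_eq hq (hn.trans (by exact_mod_cast hm))]
  have hgi : ∀ n : ℕ, IntegrableOn (fun q : ℝ × ℝ => gN n q.1 (t + q.2)) (HH r) := fun n =>
    (gN_int hr hr1 (Nat.cast_nonneg n) t).mono_set (HH_sub r)
  have hφi : ∀ n, Integrable (φ n) μ := fun n => hicB.sub (hgi n)
  set M : ℝ := B * (π * r ^ 2 / 2) - 1 / 2 * (π * r ^ 2 * g 0 t -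
    (r * Real.log (t + 1) + K) * (π * r ^ 2 / 2)) with hM
  have hφM : ∀ n, ∫ q, φ n q ∂μ ≤ M := by
    intro n
    have h1 := hH r hr hr1 t ht n (Nat.cast_nonneg n)
    have h2 := g_le_gN h0 n
    have h3 : ∫ q, φ n q ∂μ = B * (π * r ^ 2 / 2) - ∫ q in HH r, gN n q.1 (t + q.2) := by
      simp only [hφ, hμ]
      rw [integral_sub hicB (hgi n), setIntegral_const, HH_vol hr, smul_eq_mul]
      ring
    have h4 : π * r ^ 2 * g 0 t ≤ π * r ^ 2 * gN n 0 t :=
      mul_le_mul_of_nonneg_left h2 (by positivity)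
    rw [h3, hM]
    linarith
  have hM0 : 0 ≤ M := (integral_nonneg_of_ae (hφ0 0)).trans (hφM 0)
  have hlint : ∫⁻ q, ENNReal.ofReal (ψ q) ∂μ ≤ ENNReal.ofReal M := by
    have h1 : ∀ᵐ q ∂μ, ENNReal.ofReal (ψ q) = liminf (fun n => ENNReal.ofReal (φ n q)) atTop := by
      filter_upwards [hlim] with q hq
      exact ((ENNReal.continuous_ofReal.tendsto _).comp hq).liminf_eq.symm
    calc ∫⁻ q, ENNReal.ofReal (ψ q) ∂μ = ∫⁻ q, liminf (fun n => ENNReal.ofReal (φ n q)) atTop ∂μ :=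
          lintegral_congr_ae h1
      _ ≤ liminf (fun n => ∫⁻ q, ENNReal.ofReal (φ n q) ∂μ) atTop :=
          lintegral_liminf_le fun n => (hφm n).ennreal_ofReal
      _ ≤ ENNReal.ofReal M := by
          refine liminf_le_of_frequently_le' (Frequently.of_forall fun n => ?_)
          rw [← ofReal_integral_eq_lintegral_ofReal (hφi n) (hφ0 n)]
          exact ENNReal.ofReal_le_ofReal (hφM n)
  have hψi : Integrable ψ μ := by
    refine ⟨hψm.aestronglyMeasurable, ?_⟩
    rw [hasFiniteIntegral_iff_ofReal hψ0]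
    exact lt_of_le_of_lt hlint ENNReal.ofReal_lt_top
  have hψM : ∫ q, ψ q ∂μ ≤ M := by
    rw [← ENNReal.ofReal_le_ofReal_iff hM0, ofReal_integral_eq_lintegral_ofReal hψi hψ0]
    exact hlint
  have hgint : IntegrableOn (fun q : ℝ × ℝ => g q.1 (t + q.2)) (HH r) := by
    have h1 := hicB.sub hψi
    refine Integrable.congr h1 (Eventually.of_forall fun q => ?_)
    simp only [hψ, Pi.sub_apply]
    ring
  refine ⟨hgint, ?_⟩
  have h5 : ∫ q, ψ q ∂μ = B * (π * r ^ 2 / 2) - ∫ q in HH r, g q.1 (t + q.2) := by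
    simp only [hψ, hμ]
    rw [integral_sub hicB hgint, setIntegral_const, HH_vol hr, smul_eq_mul]
    ring
  rw [h5, hM] at hψM
  linarith

theorem t_pw : S_pw := by
  intro r hr hr1
  obtain ⟨K, hK, hH⟩ := half_g
  have l5 : 0 ≤ Real.log 5 := Real.log_nonneg (by norm_num)
  refine ⟨Real.exp (K / 2 + Real.log 5), Real.exp_pos _, fun t ht => ?_⟩
  have ht0 : 0 < t := by linarith
  have hta : 1 ≤ |t| := by rw [abs_of_pos ht0]; linarith
  have htr : 0 < t ^ r := Real.rpow_pos_of_pos ht0 r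
  by_cases hz : riemannZeta (pt 0 t) = 0
  · rw [hz, norm_zero]
    positivity
  have hG : GG (pt 0 t) ≠ 0 := (GG_ne_iff (by norm_num) hta).2 hz
  obtain ⟨hgi, h1⟩ := hH r hr hr1 t ht hG
  have hfin : volume (HH r) ≠ ⊤ := ne_top_of_le_ne_top (DD_fin hr) (measure_mono (HH_sub r))
  have hpi := Real.pi_pos
  -- comparison of `g` and `lz` on the half disc
  have hcmp : ∀ q ∈ HH r, g q.1 (t + q.2) ≤ lz q.1 (t + q.2) ∧
      lz q.1 (t + q.2) ≤ g q.1 (t + q.2) + Real.log 5 := by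
    intro q hq
    have hq0 : 0 < q.1 := hq.1
    obtain ⟨b1, b2⟩ := mem_bd hr (HH_sub r hq)
    have b4 := abs_le.1 b2
    exact g_zeta (by linarith) (by rw [abs_of_nonneg] <;> linarith)
  have hli : IntegrableOn (fun q : ℝ × ℝ => lz q.1 (t + q.2)) (HH r) := by
    have hb : IntegrableOn (fun q : ℝ × ℝ => lz q.1 (t + q.2) - g q.1 (t + q.2)) (HH r) := by
      refine Measure.integrableOn_of_bounded (M := Real.log 5) hfin
        ((lz_meas_comp measurable_fst (measurable_snd.const_add t)).sub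
          (g_meas_comp measurable_fst (measurable_snd.const_add t))).aestronglyMeasurable ?_
      rw [ae_restrict_iff' (HH_meas r)]
      refine Eventually.of_forall fun q hq => ?_
      obtain ⟨c1, c2⟩ := hcmp q hq
      rw [Real.norm_eq_abs, abs_le]
      constructor <;> linarith
    refine Integrable.congr (hgi.add hb) (Eventually.of_forall fun q => ?_)
    simp only [Pi.add_apply]
    ring
  have h2 : ∫ q in HH r, g q.1 (t + q.2) ≤ ∫ q in HH r, lz q.1 (t + q.2) :=
    setIntegral_mono_on hgi hli (HH_meas r) fun q hq => (hcmp q hq).1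
  have hJ : Jw (hd r) t = 2 / (π * r ^ 2) * ∫ q in HH r, lz q.1 (t + q.2) := by
    unfold Jw hd
    have e : HD r = HH r := rfl
    rw [integral_smul_measure, ENNReal.toReal_ofReal (by positivity), e, smul_eq_mul]
  have h3 : g 0 t ≤ Jw (hd r) t + (r * Real.log (t + 1) + K) / 2 := by
    have hp : 0 < π * r ^ 2 := by positivity
    have h4 : π * r ^ 2 * g 0 t ≤ π * r ^ 2 * (Jw (hd r) t + (r * Real.log (t + 1) + K) / 2) := by
      rw [hJ]
      have e : π * r ^ 2 * (2 / (π * r ^ 2) * (∫ q in HH r, lz q.1 (t + q.2)) +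
          (r * Real.log (t + 1) + K) / 2) = 2 * (∫ q in HH r, lz q.1 (t + q.2)) +
          (r * Real.log (t + 1) + K) * (π * r ^ 2 / 2) := by
        field_simp
      rw [e]
      linarith
    exact le_of_mul_le_mul_left h4 hp
  have h4 : lz 0 t ≤ g 0 t + Real.log 5 := (g_zeta (by norm_num) hta).2
  have h5 : Real.log (t + 1) ≤ 2 * Real.log t := by
    rw [← Real.log_rpow ht0]
    refine Real.log_le_log (by linarith) ?_
    rw [Real.rpow_two]
    nlinarith
  have h6 : r * Real.log (t + 1) / 2 ≤ Real.log t * r := by nlinarith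
  have h7 : ‖riemannZeta (pt 0 t)‖ = Real.exp (lz 0 t) := by
    unfold lz
    rw [Real.exp_log (norm_pos_iff.2 hz)]
  rw [h7, Real.rpow_def_of_pos ht0, ← Real.exp_add, ← Real.exp_add]
  refine Real.exp_le_exp.2 ?_
  linarith

end

end Pool.Agent.Y98.GM
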